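import Pool.Agent.Lib_helper74.EigSpec

/-!
The universal inequality for eigenvalues of minimal submanifolds of spheres is false in every
dimension `n ≥ 6`.
-/

namespace Pool.Agent.Results.MP_84c1ad_gt.VeroneseViolates

open Pool.Agent.Lib_helper74.EigDefs Pool.Agent.Lib_helper74.EigVero

/-- For every `n ≥ 6` there are `p ≥ 1`, a compact connected smooth `n`-dimensional submanifold
`M` (without boundary) of the unit sphere of a Euclidean space of dimension `n + p + 1`, minimal in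
that sphere, with spectrum `lam 0 ≤ lam 1 ≤ …`, and an index `j` at which the inequality
`∑_{k=1}^n lam (j+k) ≤ (n+3) lam j + (lam j)^2 / lam (j+1) + n^2` fails. -/
theorem result : ∀ n : ℕ, 6 ≤ n →
    ∃ (p : ℕ) (ι : Type) (_ : Fintype ι) (M : Set (EuclideanSpace ℝ ι)) (lam : ℕ → ℝ),
      1 ≤ p ∧ Fintype.card ι = n + p + 1 ∧
      IsSubmanifold n M ∧ IsCompact M ∧ IsConnected M ∧ (∀ q ∈ M, ‖q‖ = 1) ∧
      IsMinimalInSphere M ∧ IsSpectrum M lam ∧
      ∃ j : ℕ, ((n : ℝ) + 3) * lam j + lam j ^ 2 / lam (j + 1) + (n : ℝ) ^ 2 <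
        ∑ k ∈ Finset.Icc 1 n, lam (j + k) := by
  intro n hn
  have hn0 : 0 < n := by omega
  refine ⟨n ^ 2 + n, Fin (n + 1) × Fin (n + 1), inferInstance, Mv n, lam hn0, ?_, ?_,
    isSubmanifold hn0, isCompact_Mv, isConnected_Mv hn0, norm_Mv hn0, minimal hn0,
    isSpectrum hn0, violation hn hn0⟩
  · have : 1 ≤ n ^ 2 := Nat.one_le_pow _ _ hn0
    omega
  · simp only [Fintype.card_prod, Fintype.card_fin]
    ring

end Pool.Agent.Results.MP_84c1ad_gt.VeroneseViolates
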